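import Pool.Agent.Q45.ML.Units

/-!
# The existence of Stark units, decided by smoothed sums over primes

Let `H/K` be the ray class field extension of the problem (`K` real quadratic, modulus `𝔪∞₂`), `G` the ray class group,
`Art : G ≅ Gal(H/K)`, `φ v ∈ G` the class of a prime `v ∤ 𝔪`, `τ` the fixed real embedding of `H` above `∞₁`, `L χ` the
`L`-function of the character `χ` of `G` (Euler factors at `𝔪` removed); all `L χ` are analytic and vanish at `0`. Then
`ζ(s, A) = |G|⁻¹ ∑_χ χ(A)⁻¹ L(s, χ)` is the partial zeta function. For `γ > π/2` put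

`S_χ(T) = ∑_{v ∤ 𝔪} ∑_{k ≥ 1} (χ(v)^k/k) e^{iγ k log N(v)/T}/Γ(1 + k log N(v)/T)`,
`Z_A(T) = |G|⁻¹ ∑_χ χ(A)⁻¹ T e^{S_χ(T)} e^{-Λ}`.

Then `Z_A(T) = ζ'(0, A) + O(1/T)`, and units `ε_A` with the properties 1, 2, 3 of Stark's conjecture exist if and only
if the vectors `(exp(-2 Z_A(T)))_A` approach, along one sequence `T → ∞`, the (locally finite) set of all vectors
`(τ(ε_A))_A` coming from units with the properties 2 and 3.
-/

set_option autoImplicit false

namespace Pool.Agent.Results.MP_343f43_nt.ExistenceOfStarkUnits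

open Filter Topology Asymptotics NumberField IsDedekindDomain Pool.Agent.Q45.ML

/-- properties 1, 2, 3 of the problem for the values `x A` (property 1: `τ (ε A) = x A`): `ε A` are units of the ring
of integers of `H`, `Art(B)(ε A) = ε (A B)`, and `|g(ε A)| = 1` for all embeddings `g` of `H` which differ from `τ` on
`K` -/
def IsStarkFamily {K H : Type} [Field K] [NumberField K] [Field H] [NumberField H] [Algebra K H]
    {G : Type} [CommGroup G] (Art : G ≃* (H ≃ₐ[K] H)) (τ : H →+* ℂ) (x : G → ℂ) : Prop :=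
  ∃ ε : G → H, (∀ A, ε A ≠ 0 ∧ IsIntegral ℤ (ε A) ∧ IsIntegral ℤ (ε A)⁻¹) ∧ (∀ A, τ (ε A) = x A) ∧
    (∀ A B, Art B (ε A) = ε (A * B)) ∧
    ∀ A (g : H →+* ℂ), g.comp (algebraMap K H) ≠ τ.comp (algebraMap K H) → ‖g (ε A)‖ = 1

theorem result (K H : Type) [Field K] [NumberField K] [Field H] [NumberField H] [Algebra K H]
    [IsGalois K H] {G : Type} [CommGroup G] [Fintype G] [Fintype (G →* ℂˣ)]
    (Art : G ≃* (H ≃ₐ[K] H)) (τ : H →+* ℂ) (Sf : Finset (HeightOneSpectrum (𝓞 K)))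
    (φ : HeightOneSpectrum (𝓞 K) → G) (L : (G →* ℂˣ) → ℂ → ℂ) (hL : IsFamily Sf φ L)
    {γ : ℝ} (hγ : Real.pi / 2 < γ) :
    (∀ χ, ∀ T : ℝ, 0 < T → Summable fun z => ‖chiTerm Sf φ χ γ T z‖) ∧
    (∀ A, (fun T : ℝ => partialSum Sf φ γ A T - deriv (partialZeta L A) 0) =O[atTop]
      (fun T : ℝ => 1 / T)) ∧
    (∀ r : ℝ, ({x : G → ℂ | IsStarkFamily Art τ x} ∩ Metric.closedBall 0 r).Finite) ∧
    List.TFAE [IsStarkFamily Art τ (fun A => Complex.exp (-2 * deriv (partialZeta L A) 0)),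
      Tendsto (fun T : ℝ => Metric.infDist (fun A => Complex.exp (-2 * partialSum Sf φ γ A T))
        {x : G → ℂ | IsStarkFamily Art τ x}) atTop (𝓝 0),
      ∃ t : ℕ → ℝ, Tendsto t atTop atTop ∧
        Tendsto (fun i => Metric.infDist (fun A => Complex.exp (-2 * partialSum Sf φ γ A (t i)))
          {x : G → ℂ | IsStarkFamily Art τ x}) atTop (𝓝 0)] := by
  have hfin : ∀ r : ℝ, ({x : G → ℂ | IsStarkFamily Art τ x} ∩ Metric.closedBall 0 r).Finite :=
    fun r => starkUnits_finite Art τ r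
  have hne : ({x : G → ℂ | IsStarkFamily Art τ x}).Nonempty := ⟨_, starkUnits_one Art τ⟩
  have hrate := fun A => hL.partial_rate hγ A
  have hlim : Tendsto (fun T : ℝ => fun A => Complex.exp (-2 * partialSum Sf φ γ A T)) atTop
      (𝓝 fun A => Complex.exp (-2 * deriv (partialZeta L A) 0)) := by
    refine tendsto_pi_nhds.2 fun A => ?_
    exact (Complex.continuous_exp.tendsto _).comp ((tendsto_of_rate (hrate A)).const_mul _)
  refine ⟨fun χ T hT => chi_summable Sf φ χ γ hT, hrate, hfin, ?_⟩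
  exact closed_tfae (closed_of_finite_balls hfin) hne hlim

end Pool.Agent.Results.MP_343f43_nt.ExistenceOfStarkUnits
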